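import Pool.Agent.NGM.StmtsK

/-! # Row BND of table ngm -/

set_option autoImplicit false

namespace Pool.Agent.NGM.H82

open Pool.Agent.NGM
open scoped Pointwise Classical
open Filter Topology

universe u

variable {Q : Type u} [Group Q]

theorem card_pos' {K : Finset Q} (hK : GenSet K) : (0 : ℝ) < K.card := by
  have : 0 < K.card := Finset.card_pos.mpr ⟨1, hK.one⟩
  exact_mod_cast this

theorem av_const_sub {K : Finset Q} (hK : GenSet K) (c : ℝ) (f : Q → ℝ) :
    av K (fun x => c - f x) = fun x => c - av K f x := by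
  funext x
  have hc : (K.card : ℝ) ≠ 0 := (card_pos' hK).ne'
  simp only [av, Finset.sum_sub_distrib, Finset.sum_const, nsmul_eq_mul, mul_sub]
  rw [← mul_assoc, inv_mul_cancel₀ hc, one_mul]

theorem av_sub' (K : Finset Q) (f g : Q → ℝ) :
    av K (fun x => f x - g x) = fun x => av K f x - av K g x := by
  funext x
  simp only [av, Finset.sum_sub_distrib, mul_sub]

theorem wk_two (K : Finset Q) (n : ℕ) : wk K (n + 2) = av K (av K (wk K n)) := by
  unfold wk
  rw [Function.iterate_succ_apply', Function.iterate_succ_apply']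

theorem step {K : Finset Q} (hK : GenSet K) {ψ : Q → ℝ} (h : Neg ψ) {s : Q} (hs : s ∈ K) :
    ψ s ≤ (K.card : ℝ) ^ 2 * av K (av K ψ) 1 := by
  have hc : (K.card : ℝ) ≠ 0 := (card_pos' hK).ne'
  have e : (K.card : ℝ) ^ 2 * av K (av K ψ) 1 = ∑ s' ∈ K, ∑ t ∈ K, ψ (1 * s' * t) := by
    simp only [av, ← Finset.mul_sum]
    field_simp
  rw [e]
  have h1 : ψ (1 * s * 1) ≤ ∑ t ∈ K, ψ (1 * s * t) :=
    Finset.single_le_sum (f := fun t => ψ (1 * s * t)) (fun t _ => h.nonneg _) hK.one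
  have h2 : ∑ t ∈ K, ψ (1 * s * t) ≤ ∑ s' ∈ K, ∑ t ∈ K, ψ (1 * s' * t) :=
    Finset.single_le_sum (f := fun s' => ∑ t ∈ K, ψ (1 * s' * t))
      (fun s' _ => Finset.sum_nonneg (fun t _ => h.nonneg _)) hs
  have h3 : ψ (1 * s * 1) = ψ s := by simp
  linarith

theorem sqrt_bound {K : Finset Q} (hK : GenSet K) {ψ : Q → ℝ} (h : Neg ψ) (n : ℕ) :
    ∀ g ∈ K ^ n, √(ψ g) ≤ n * √((K.card : ℝ) ^ 2 * av K (av K ψ) 1) := by
  induction n with
  | zero =>
    intro g hg
    rw [pow_zero, Finset.mem_one] at hg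
    subst hg
    rw [h.one]
    simp
  | succ n ih =>
    intro g hg
    rw [pow_succ, Finset.mem_mul] at hg
    obtain ⟨x, hx, s, hs, rfl⟩ := hg
    have h1 := h.tri x s
    have h2 := ih x hx
    have h3 : √(ψ s) ≤ √((K.card : ℝ) ^ 2 * av K (av K ψ) 1) := Real.sqrt_le_sqrt (step hK h hs)
    push_cast
    linarith

theorem bound {K : Finset Q} (hK : GenSet K) {ψ : Q → ℝ} (h : Neg ψ) (n : ℕ) (g : Q)
    (hg : g ∈ K ^ n) : ψ g ≤ (n : ℝ) ^ 2 * (K.card : ℝ) ^ 2 * av K (av K ψ) 1 := by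
  have hB : 0 ≤ (K.card : ℝ) ^ 2 * av K (av K ψ) 1 := (h.nonneg 1).trans (step hK h hK.one)
  have h1 := sqrt_bound hK h n g hg
  have h2 : ψ g = √(ψ g) ^ 2 := (Real.sq_sqrt (h.nonneg g)).symm
  have h3 : √(ψ g) ^ 2 ≤ (n * √((K.card : ℝ) ^ 2 * av K (av K ψ) 1)) ^ 2 :=
    pow_le_pow_left₀ (Real.sqrt_nonneg _) h1 2
  rw [mul_pow, Real.sq_sqrt hB] at h3
  rw [h2]
  linarith

theorem bnd (_hWK : WkStmt.{u}) (hNGP : NgpStmt.{u}) : BndStmt.{u} := by
  intro Q _ K hK k n g hg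
  obtain ⟨hA, hB⟩ := hNGP Q K hK k
  have h0 : wk K (2 * k + 2) = av K (av K (wk K (2 * k))) := wk_two K (2 * k)
  have h1 : wk K (2 * k + 4) = av K (av K (wk K (2 * k + 2))) := wk_two K (2 * k + 2)
  have e1 : pp K (k + 1) = wk K (2 * k + 2) 1 := by
    unfold pp
    rw [show 2 * (k + 1) = 2 * k + 2 from by ring]
  have e2 : pp K (k + 2) = wk K (2 * k + 4) 1 := by
    unfold pp
    rw [show 2 * (k + 2) = 2 * k + 4 from by ring]
  constructor
  · have := bound hK hA n g hg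
    have e : av K (av K (fun g => pp K k - wk K (2 * k) g)) 1 = aa K k := by
      rw [av_const_sub hK, av_const_sub hK]
      simp only [aa, e1, h0]
    rw [e] at this
    exact this
  · have := bound hK hB n g hg
    have e : av K (av K (fun g => aa K k - (wk K (2 * k) g - wk K (2 * k + 2) g))) 1 =
        aa K k - aa K (k + 1) := by
      rw [av_const_sub hK, av_const_sub hK, av_sub', av_sub']
      have e3 : aa K (k + 1) = wk K (2 * k + 2) 1 - wk K (2 * k + 4) 1 := by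
        unfold aa
        rw [e1, show k + 1 + 1 = k + 2 from rfl, e2]
      rw [e3, h1, h0]
    rw [e] at this
    exact this

end Pool.Agent.NGM.H82
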